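import Mathlib

/-!
# MP_2332b0_al : kernels of failing Lefschetz maps without complete-intersection generators

Let `I = (x₀x₁, x₂x₃) ⊂ R = 𝕂[x₀, x₁, x₂, x₃]` and `a = (5, 3, 5, 3)`. The algebra
`A = R / (I + (x₀⁵, x₁³, x₂⁵, x₃³))` fails the WLP in degree `3`, and for a general linear form
`L = ∑ cᵢ xᵢ` the kernel `𝒦` is spanned by `(Y₀/c₀ - Y₂/c₂)⁴`, whose annihilator contains the three
linear forms `x₁, x₃, L`, so it is not of the form `I + (θ₁, θ₂)`.
-/

set_option autoImplicit false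

namespace Pool.Agent.Results.MP_2332b0_al.NoCIGenerator

open MvPolynomial

section Defs

variable {𝕂 : Type} [Field 𝕂] {n m : ℕ}

/-- The partial derivative `∂^s F = ∏ᵢ (∂/∂yᵢ)^(s i) F`. -/
noncomputable def iterD (s : Fin n →₀ ℕ) (F : MvPolynomial (Fin n) 𝕂) :
    MvPolynomial (Fin n) 𝕂 :=
  (List.finRange n).foldr (fun i G => (fun H => pderiv i H)^[s i] G) F

/-- The action `g ∘ F` of `R` on `S` in which `xᵢ` acts as `∂/∂yᵢ`. -/
noncomputable def act (g F : MvPolynomial (Fin n) 𝕂) : MvPolynomial (Fin n) 𝕂 :=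
  ∑ s ∈ g.support, C (coeff s g) * iterD s F

/-- The annihilator `Ann_R(F)`. -/
def ann (F : MvPolynomial (Fin n) 𝕂) : Set (MvPolynomial (Fin n) 𝕂) := {g | act g F = 0}

/-- The squarefree monomial `∏_{i ∈ v} xᵢ`. -/
noncomputable def sqf (v : Finset (Fin n)) : MvPolynomial (Fin n) 𝕂 := ∏ i ∈ v, X i

/-- The ideal generated by the squarefree monomials `∏_{i ∈ u k} xᵢ`. -/
noncomputable def monI (u : Fin m → Finset (Fin n)) : Ideal (MvPolynomial (Fin n) 𝕂) :=
  Ideal.span (Set.range fun k => sqf (u k))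

/-- The ideal `J = I + (x₁^{a₁}, …, xₙ^{aₙ})`. -/
noncomputable def monJ (u : Fin m → Finset (Fin n)) (a : Fin n → ℕ) :
    Ideal (MvPolynomial (Fin n) 𝕂) :=
  monI u ⊔ Ideal.span (Set.range fun i => X i ^ a i)

/-- The linear form with coefficients `c`. -/
noncomputable def lin (c : Fin n → 𝕂) : MvPolynomial (Fin n) 𝕂 := ∑ i, C (c i) * X i

/-- `Q` holds for a general linear form, i.e. on a nonempty Zariski open set of coefficient
vectors. -/
def General (Q : (Fin n → 𝕂) → Prop) : Prop :=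
  ∃ P : MvPolynomial (Fin n) 𝕂, P ≠ 0 ∧ ∀ c : Fin n → 𝕂, eval c P ≠ 0 → Q c

/-- `×L : A_d → A_{d+1}` is injective, `A = R / J`. -/
def MulInj (J : Ideal (MvPolynomial (Fin n) 𝕂)) (L : MvPolynomial (Fin n) 𝕂) (d : ℕ) : Prop :=
  ∀ f : MvPolynomial (Fin n) 𝕂, f.IsHomogeneous d → L * f ∈ J → f ∈ J

/-- `×L : A_d → A_{d+1}` is surjective, `A = R / J`. -/
def MulSurj (J : Ideal (MvPolynomial (Fin n) 𝕂)) (L : MvPolynomial (Fin n) 𝕂) (d : ℕ) : Prop :=
  ∀ g : MvPolynomial (Fin n) 𝕂, g.IsHomogeneous (d + 1) →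
    ∃ f : MvPolynomial (Fin n) 𝕂, f.IsHomogeneous d ∧ g - L * f ∈ J

/-- `A = R / J` fails the weak Lefschetz property in degree `d`. -/
def FailsWLP (J : Ideal (MvPolynomial (Fin n) 𝕂)) (d : ℕ) : Prop :=
  General fun c => ¬ MulInj J (lin c) d ∧ ¬ MulSurj J (lin c) d

/-- The kernel `𝒦 = {F ∈ S_t : J ∘ F = 0, L ∘ F = 0}`. -/
def ker (J : Ideal (MvPolynomial (Fin n) 𝕂)) (L : MvPolynomial (Fin n) 𝕂) (t : ℕ) :
    Set (MvPolynomial (Fin n) 𝕂) :=
  {F | F.IsHomogeneous t ∧ (∀ g ∈ J, act g F = 0) ∧ act L F = 0}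

/-- `θ₁, …, θᵣ` is a (homogeneous) system of parameters of `R / I`. -/
def IsSop (I : Ideal (MvPolynomial (Fin n) 𝕂)) {r : ℕ} (θ : Fin r → MvPolynomial (Fin n) 𝕂) :
    Prop :=
  ringKrullDim (MvPolynomial (Fin n) 𝕂 ⧸ I) = r ∧
    (∀ j, ∃ d, 0 < d ∧ (θ j).IsHomogeneous d) ∧
    IsArtinianRing (MvPolynomial (Fin n) 𝕂 ⧸ (I ⊔ Ideal.span (Set.range θ)))

end Defs

section Proof

variable {𝕂 : Type} [Field 𝕂]

/-- the exponents -/
noncomputable def e4 (a b c d : ℕ) : Fin 4 →₀ ℕ := Finsupp.equivFunOnFinite.symm ![a, b, c, d]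

theorem e4_0 (a b c d : ℕ) : e4 a b c d 0 = a := rfl
theorem e4_1 (a b c d : ℕ) : e4 a b c d 1 = b := rfl
theorem e4_2 (a b c d : ℕ) : e4 a b c d 2 = c := rfl
theorem e4_3 (a b c d : ℕ) : e4 a b c d 3 = d := rfl

theorem e4_eta (s : Fin 4 →₀ ℕ) : s = e4 (s 0) (s 1) (s 2) (s 3) := by
  ext i
  fin_cases i <;> rfl

theorem e4_add0 (a b c d : ℕ) : e4 a b c d + Finsupp.single 0 1 = e4 (a + 1) b c d := by
  ext i
  fin_cases i <;> simp [e4]

theorem e4_add1 (a b c d : ℕ) : e4 a b c d + Finsupp.single 1 1 = e4 a (b + 1) c d := by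
  ext i
  fin_cases i <;> simp [e4]

theorem e4_add2 (a b c d : ℕ) : e4 a b c d + Finsupp.single 2 1 = e4 a b (c + 1) d := by
  ext i
  fin_cases i <;> simp [e4]

theorem e4_add3 (a b c d : ℕ) : e4 a b c d + Finsupp.single 3 1 = e4 a b c (d + 1) := by
  ext i
  fin_cases i <;> simp [e4]

/-- the supports of the two generators -/
def uu : Fin 2 → Finset (Fin 4) := ![{0, 1}, {2, 3}]

/-- the exponents of the pure powers -/
def aa : Fin 4 → ℕ := ![5, 3, 5, 3]

theorem monI_eq : monI uu = (Ideal.span {X 0 * X 1, X 2 * X 3} :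
    Ideal (MvPolynomial (Fin 4) 𝕂)) := by
  unfold monI
  congr 1
  ext f
  simp [uu, sqf, Fin.exists_fin_two, eq_comm]

theorem monI_eq' : monI uu = (Ideal.span ((fun s => monomial s (1 : 𝕂)) ''
    {e4 1 1 0 0, e4 0 0 1 1}) : Ideal (MvPolynomial (Fin 4) 𝕂)) := by
  rw [monI_eq]
  congr 1
  rw [Set.image_pair]
  have h1 : (X 0 * X 1 : MvPolynomial (Fin 4) 𝕂) = monomial (e4 1 1 0 0) 1 := by
    have h : (Finsupp.single 0 1 + Finsupp.single 1 1 : Fin 4 →₀ ℕ) = e4 1 1 0 0 := by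
      ext i
      fin_cases i <;> simp [e4]
    rw [X, X, monomial_mul, one_mul, h]
  have h2 : (X 2 * X 3 : MvPolynomial (Fin 4) 𝕂) = monomial (e4 0 0 1 1) 1 := by
    have h : (Finsupp.single 2 1 + Finsupp.single 3 1 : Fin 4 →₀ ℕ) = e4 0 0 1 1 := by
      ext i
      fin_cases i <;> simp [e4]
    rw [X, X, monomial_mul, one_mul, h]
  rw [h1, h2]

theorem powers_eq : (Ideal.span (Set.range fun i => X i ^ aa i) :
    Ideal (MvPolynomial (Fin 4) 𝕂)) = Ideal.span ((fun s => monomial s (1 : 𝕂)) ''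
      {e4 5 0 0 0, e4 0 3 0 0, e4 0 0 5 0, e4 0 0 0 3}) := by
  congr 1
  have h : ∀ i k, (X i ^ k : MvPolynomial (Fin 4) 𝕂) = monomial (Finsupp.single i k) 1 :=
    fun i k => X_pow_eq_monomial
  have h0 : Finsupp.single 0 5 = e4 5 0 0 0 := by
    ext i
    fin_cases i <;> simp [e4]
  have h1 : Finsupp.single 1 3 = e4 0 3 0 0 := by
    ext i
    fin_cases i <;> simp [e4]
  have h2 : Finsupp.single 2 5 = e4 0 0 5 0 := by
    ext i
    fin_cases i <;> simp [e4]
  have h3 : Finsupp.single 3 3 = e4 0 0 0 3 := by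
    ext i
    fin_cases i <;> simp [e4]
  rw [← h0, ← h1, ← h2, ← h3]
  ext f
  simp only [Set.mem_range, Set.mem_image, Set.mem_insert_iff, Set.mem_singleton_iff, h]
  constructor
  · rintro ⟨i, rfl⟩
    fin_cases i
    · exact ⟨_, Or.inl rfl, rfl⟩
    · exact ⟨_, Or.inr (Or.inl rfl), rfl⟩
    · exact ⟨_, Or.inr (Or.inr (Or.inl rfl)), rfl⟩
    · exact ⟨_, Or.inr (Or.inr (Or.inr rfl)), rfl⟩
  · rintro ⟨s, rfl | rfl | rfl | rfl, rfl⟩
    · exact ⟨0, rfl⟩
    · exact ⟨1, rfl⟩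
    · exact ⟨2, rfl⟩
    · exact ⟨3, rfl⟩

theorem e4_le (a b c d : ℕ) (s : Fin 4 →₀ ℕ) :
    e4 a b c d ≤ s ↔ a ≤ s 0 ∧ b ≤ s 1 ∧ c ≤ s 2 ∧ d ≤ s 3 := by
  constructor
  · intro h
    exact ⟨h 0, h 1, h 2, h 3⟩
  · rintro ⟨h0, h1, h2, h3⟩ i
    fin_cases i
    · exact h0
    · exact h1
    · exact h2
    · exact h3

theorem mem_monI (f : MvPolynomial (Fin 4) 𝕂) : f ∈ monI (𝕂 := 𝕂) uu ↔
    ∀ s ∈ f.support, (1 ≤ s 0 ∧ 1 ≤ s 1) ∨ (1 ≤ s 2 ∧ 1 ≤ s 3) := by
  rw [monI_eq', mem_ideal_span_monomial_image]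
  simp only [Set.mem_insert_iff, Set.mem_singleton_iff, exists_eq_or_imp, exists_eq_left, e4_le]
  simp

theorem mem_monJ (f : MvPolynomial (Fin 4) 𝕂) : f ∈ monJ (𝕂 := 𝕂) uu aa ↔
    ∀ s ∈ f.support, (1 ≤ s 0 ∧ 1 ≤ s 1) ∨ (1 ≤ s 2 ∧ 1 ≤ s 3) ∨ 5 ≤ s 0 ∨ 3 ≤ s 1 ∨ 5 ≤ s 2 ∨
      3 ≤ s 3 := by
  rw [monJ, monI_eq', powers_eq, ← Ideal.span_union, ← Set.image_union,
    mem_ideal_span_monomial_image]
  simp only [Set.mem_union, Set.mem_insert_iff, Set.mem_singleton_iff, or_assoc,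
    exists_eq_or_imp, exists_eq_left, e4_le]
  simp

/-! ### The action -/

theorem act_eq {n : ℕ} (g F : MvPolynomial (Fin n) 𝕂) (T : Finset (Fin n →₀ ℕ))
    (hT : g.support ⊆ T) : act g F = ∑ s ∈ T, C (coeff s g) * iterD s F := by
  unfold act
  apply Finset.sum_subset hT
  intro s _ hs
  rw [notMem_support_iff.mp hs, C_0, zero_mul]

theorem act_add {n : ℕ} (g h F : MvPolynomial (Fin n) 𝕂) :
    act (g + h) F = act g F + act h F := by
  classical
  rw [act_eq (g + h) F (g.support ∪ h.support) support_add,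
    act_eq g F (g.support ∪ h.support) Finset.subset_union_left,
    act_eq h F (g.support ∪ h.support) Finset.subset_union_right, ← Finset.sum_add_distrib]
  refine Finset.sum_congr rfl fun s _ => ?_
  rw [coeff_add, C_add, add_mul]

theorem act_zero {n : ℕ} (F : MvPolynomial (Fin n) 𝕂) : act 0 F = 0 := by
  simp [act]

theorem act_monomial {n : ℕ} (s : Fin n →₀ ℕ) (c : 𝕂) (F : MvPolynomial (Fin n) 𝕂) :
    act (monomial s c) F = C c * iterD s F := by
  rw [act_eq (monomial s c) F {s} support_monomial_subset, Finset.sum_singleton,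
    coeff_monomial, if_pos rfl]

theorem iterD_four (s : Fin 4 →₀ ℕ) (F : MvPolynomial (Fin 4) 𝕂) :
    iterD s F = (fun H => pderiv 0 H)^[s 0] ((fun H => pderiv 1 H)^[s 1]
      ((fun H => pderiv 2 H)^[s 2] ((fun H => pderiv 3 H)^[s 3] F))) := by
  rfl

theorem iterD_single (i : Fin 4) (F : MvPolynomial (Fin 4) 𝕂) :
    iterD (Finsupp.single i 1) F = pderiv i F := by
  rw [iterD_four]
  fin_cases i <;> simp

theorem act_lin (c : Fin 4 → 𝕂) (F : MvPolynomial (Fin 4) 𝕂) :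
    act (lin c) F = ∑ i, C (c i) * pderiv i F := by
  have h : ∀ i, act (C (c i) * X i) F = C (c i) * pderiv i F := by
    intro i
    rw [C_mul_X_eq_monomial, act_monomial, iterD_single]
  have h2 : ∀ T : Finset (Fin 4), act (∑ i ∈ T, C (c i) * X i) F =
      ∑ i ∈ T, C (c i) * pderiv i F := by
    classical
    intro T
    induction T using Finset.induction_on with
    | empty => simp [act_zero]
    | insert i T hi ih => rw [Finset.sum_insert hi, Finset.sum_insert hi, act_add, h, ih]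
  exact h2 Finset.univ

theorem act_X (i : Fin 4) (F : MvPolynomial (Fin 4) 𝕂) : act (X i) F = pderiv i F := by
  rw [X, act_monomial, iterD_single, C_1, one_mul]

section char0

variable [CharZero 𝕂]

theorem coeff_pderiv_zero {i : Fin 4} (m : Fin 4 →₀ ℕ) (F : MvPolynomial (Fin 4) 𝕂) :
    coeff m (pderiv i F) = 0 ↔ coeff (m + Finsupp.single i 1) F = 0 := by
  rw [coeff_pderiv, mul_eq_zero]
  constructor
  · rintro (h | h)
    · exact h
    · exfalso
      exact Nat.cast_add_one_ne_zero (R := 𝕂) (m i) h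
  · exact Or.inl

theorem coeff_iter_zero {i : Fin 4} (k : ℕ) : ∀ (m : Fin 4 →₀ ℕ) (F : MvPolynomial (Fin 4) 𝕂),
    coeff m ((fun H => pderiv i H)^[k] F) = 0 ↔ coeff (m + Finsupp.single i k) F = 0 := by
  induction k with
  | zero => intro m F; simp
  | succ k ih =>
    intro m F
    rw [Function.iterate_succ_apply', coeff_pderiv_zero, ih, add_assoc, ← Finsupp.single_add,
      add_comm 1 k]

theorem coeff_iterD_zero (s : Fin 4 →₀ ℕ) (F : MvPolynomial (Fin 4) 𝕂)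
    (h : iterD s F = 0) : coeff s F = 0 := by
  rw [iterD_four] at h
  have h0 := congrArg (coeff 0) h
  rw [coeff_zero, coeff_iter_zero, coeff_iter_zero, coeff_iter_zero, coeff_iter_zero] at h0
  rw [e4_eta s]
  convert h0 using 2
  ext i
  fin_cases i <;> simp [e4]

/-- the coefficients of an element of the kernel -/
theorem coeff_zero_of_mem {t : ℕ} {L F : MvPolynomial (Fin 4) 𝕂} (hF : F ∈ ker (monJ uu aa) L t)
    (a b c d : ℕ) (h : (1 ≤ a ∧ 1 ≤ b) ∨ (1 ≤ c ∧ 1 ≤ d) ∨ 5 ≤ a ∨ 3 ≤ b ∨ 5 ≤ c ∨ 3 ≤ d) :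
    coeff (e4 a b c d) F = 0 := by
  apply coeff_iterD_zero
  have h1 := hF.2.1 (monomial (e4 a b c d) 1) (by
    rw [mem_monJ]
    intro s hs
    have := support_monomial_subset hs
    rw [Finset.mem_singleton] at this
    rw [this]
    exact h)
  rwa [act_monomial, C_1, one_mul] at h1

omit [CharZero 𝕂] in
theorem coeff_rel {t : ℕ} {c : Fin 4 → 𝕂} {F : MvPolynomial (Fin 4) 𝕂}
    (hF : F ∈ ker (monJ uu aa) (lin c) t) (x y z w : ℕ) :
    c 0 * ((x + 1) * coeff (e4 (x + 1) y z w) F) + c 1 * ((y + 1) * coeff (e4 x (y + 1) z w) F) +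
      c 2 * ((z + 1) * coeff (e4 x y (z + 1) w) F) + c 3 * ((w + 1) * coeff (e4 x y z (w + 1)) F)
      = 0 := by
  have h := hF.2.2
  rw [act_lin] at h
  have h1 := congrArg (coeff (e4 x y z w)) h
  rw [Fin.sum_univ_four, coeff_add, coeff_add, coeff_add, coeff_C_mul, coeff_C_mul, coeff_C_mul,
    coeff_C_mul, coeff_pderiv, coeff_pderiv, coeff_pderiv, coeff_pderiv, e4_add0, e4_add1,
    e4_add2, e4_add3, e4_0, e4_1, e4_2, e4_3, coeff_zero] at h1
  linear_combination h1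

/-- elements of the kernel only involve `y₀` and `y₂` -/
theorem coeff_zero_of_ker {c : Fin 4 → 𝕂} (hc : ∀ i, c i ≠ 0) {F : MvPolynomial (Fin 4) 𝕂}
    (hF : F ∈ ker (monJ uu aa) (lin c) 4) (s : Fin 4 →₀ ℕ) (hs : 1 ≤ s 1 ∨ 1 ≤ s 3) :
    coeff s F = 0 := by
  have key : ∀ (r : ℕ) (x y : 𝕂), x ≠ 0 → x * ((r + 1) * y) = 0 → y = 0 := by
    intro r x y hx h
    rcases mul_eq_zero.mp h with h | h
    · exact absurd h hx
    · rcases mul_eq_zero.mp h with h | h
      · exact absurd h (Nat.cast_add_one_ne_zero r)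
      · exact h
  have Z := fun a b c d h => coeff_zero_of_mem (𝕂 := 𝕂) hF a b c d h
  have R := fun x y z w => coeff_rel hF x y z w
  have f0202 : coeff (e4 0 2 0 2) F = 0 := by
    have h := R 0 2 0 1
    rw [Z 1 2 0 1 (by omega), Z 0 3 0 1 (by omega), Z 0 2 1 1 (by omega)] at h
    exact key 1 (c 3) _ (hc 3) (by simpa using h)
  have f2002 : coeff (e4 2 0 0 2) F = 0 := by
    have h := R 1 0 0 2
    rw [Z 1 1 0 2 (by omega), Z 1 0 1 2 (by omega), Z 1 0 0 3 (by omega)] at h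
    exact key 1 (c 0) _ (hc 0) (by simpa using h)
  have f3001 : coeff (e4 3 0 0 1) F = 0 := by
    have h := R 2 0 0 1
    rw [Z 2 1 0 1 (by omega), Z 2 0 1 1 (by omega), f2002] at h
    exact key 2 (c 0) _ (hc 0) (by simpa using h)
  have f0220 : coeff (e4 0 2 2 0) F = 0 := by
    have h := R 0 2 1 0
    rw [Z 1 2 1 0 (by omega), Z 0 3 1 0 (by omega), Z 0 2 1 1 (by omega)] at h
    exact key 1 (c 2) _ (hc 2) (by simpa using h)
  have f0130 : coeff (e4 0 1 3 0) F = 0 := by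
    have h := R 0 1 2 0
    rw [Z 1 1 2 0 (by omega), f0220, Z 0 1 2 1 (by omega)] at h
    exact key 2 (c 2) _ (hc 2) (by simpa using h)
  by_contra hne
  have hdeg : s.degree = 4 := by
    by_contra h'
    exact hne (hF.1.coeff_eq_zero h')
  rw [Finsupp.degree_eq_sum, Fin.sum_univ_four] at hdeg
  rw [e4_eta s] at hne
  generalize s 0 = a at *
  generalize s 1 = b at *
  generalize s 2 = c' at *
  generalize s 3 = d at *
  have ha : a = 0 ∨ b = 0 := by
    by_contra hcon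
    rw [not_or] at hcon
    exact hne (Z a b c' d (Or.inl ⟨Nat.one_le_iff_ne_zero.mpr hcon.1,
      Nat.one_le_iff_ne_zero.mpr hcon.2⟩))
  have hc' : c' = 0 ∨ d = 0 := by
    by_contra hcon
    rw [not_or] at hcon
    exact hne (Z a b c' d (Or.inr (Or.inl ⟨Nat.one_le_iff_ne_zero.mpr hcon.1,
      Nat.one_le_iff_ne_zero.mpr hcon.2⟩)))
  have hb : b ≤ 2 := by
    by_contra hcon
    exact hne (Z a b c' d (Or.inr (Or.inr (Or.inr (Or.inl (Nat.not_le.mp hcon))))))
  have hd : d ≤ 2 := by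
    by_contra hcon
    exact hne (Z a b c' d (Or.inr (Or.inr (Or.inr (Or.inr (Or.inr (Nat.not_le.mp hcon)))))))
  rcases ha with rfl | rfl <;> rcases hc' with rfl | rfl
  · obtain ⟨rfl, rfl⟩ : b = 2 ∧ d = 2 := by omega
    exact hne f0202
  · interval_cases b
    · omega
    · obtain rfl : c' = 3 := by omega
      exact hne f0130
    · obtain rfl : c' = 2 := by omega
      exact hne f0220
  · interval_cases d
    · omega
    · obtain rfl : a = 3 := by omega
      exact hne f3001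
    · obtain rfl : a = 2 := by omega
      exact hne f2002
  · omega

theorem pderiv_zero_of_ker {c : Fin 4 → 𝕂} (hc : ∀ i, c i ≠ 0) {F : MvPolynomial (Fin 4) 𝕂}
    (hF : F ∈ ker (monJ uu aa) (lin c) 4) : pderiv 1 F = 0 ∧ pderiv 3 F = 0 := by
  constructor
  · ext m
    rw [coeff_zero, coeff_pderiv_zero]
    exact coeff_zero_of_ker hc hF _ (Or.inl (by simp))
  · ext m
    rw [coeff_zero, coeff_pderiv_zero]
    exact coeff_zero_of_ker hc hF _ (Or.inr (by simp))

end char0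

/-! ### Linear forms in `I + (θ)` -/

/-- the linear part at the origin -/
noncomputable def linPart (g : MvPolynomial (Fin 4) 𝕂) : Fin 4 → 𝕂 :=
  fun i => constantCoeff (pderiv i g)

theorem linPart_add (g h : MvPolynomial (Fin 4) 𝕂) :
    linPart (g + h) = linPart g + linPart h := by
  funext i
  simp [linPart]

theorem linPart_mul (g h : MvPolynomial (Fin 4) 𝕂) :
    linPart (g * h) = constantCoeff g • linPart h + constantCoeff h • linPart g := by
  funext i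
  simp [linPart, Derivation.leibniz]

/-- the ideal of the polynomials vanishing at the origin with linear part in `W` -/
def idealOf (W : Submodule 𝕂 (Fin 4 → 𝕂)) : Ideal (MvPolynomial (Fin 4) 𝕂) where
  carrier := {g | constantCoeff g = 0 ∧ linPart g ∈ W}
  zero_mem' := by
    refine ⟨map_zero _, ?_⟩
    have : linPart (0 : MvPolynomial (Fin 4) 𝕂) = 0 := by
      funext i
      simp [linPart]
    rw [this]
    exact W.zero_mem
  add_mem' := by
    rintro g h ⟨hg1, hg2⟩ ⟨hh1, hh2⟩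
    refine ⟨by rw [map_add, hg1, hh1, add_zero], ?_⟩
    rw [linPart_add]
    exact W.add_mem hg2 hh2
  smul_mem' := by
    rintro g h ⟨hh1, hh2⟩
    rw [smul_eq_mul]
    refine ⟨by rw [map_mul, hh1, mul_zero], ?_⟩
    rw [linPart_mul, hh1, zero_smul, add_zero]
    exact W.smul_mem _ hh2

theorem mem_idealOf (W : Submodule 𝕂 (Fin 4 → 𝕂)) (g : MvPolynomial (Fin 4) 𝕂) :
    g ∈ idealOf W ↔ constantCoeff g = 0 ∧ linPart g ∈ W := Iff.rfl

theorem linPart_X (i : Fin 4) : linPart (X i : MvPolynomial (Fin 4) 𝕂) = Pi.single i 1 := by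
  funext j
  rw [linPart, pderiv_X]
  by_cases h : j = i
  · subst h
    simp
  · rw [Pi.single_eq_of_ne h, Pi.single_eq_of_ne (Ne.symm h), map_zero]

theorem linPart_lin (c : Fin 4 → 𝕂) : linPart (lin c) = c := by
  funext j
  simp only [linPart, lin, map_sum, pderiv_C_mul, pderiv_X, map_mul, constantCoeff_C]
  rw [Finset.sum_eq_single j]
  · simp
  · intro i _ hij
    rw [Pi.single_eq_of_ne hij, map_zero, mul_zero]
  · simp

theorem monI_le (W : Submodule 𝕂 (Fin 4 → 𝕂)) : monI uu ≤ idealOf W := by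
  rw [monI_eq, Ideal.span_le]
  rintro f (rfl | rfl)
  · refine ⟨by simp, ?_⟩
    rw [linPart_mul]
    simp
  · refine ⟨by simp, ?_⟩
    rw [linPart_mul]
    simp

theorem no_three {r : ℕ} (hr : r ≤ 2) (θ : Fin r → MvPolynomial (Fin 4) 𝕂)
    (hθ : ∀ j, constantCoeff (θ j) = 0) {c : Fin 4 → 𝕂} (hc : c 0 ≠ 0)
    (h1 : (X 1 : MvPolynomial (Fin 4) 𝕂) ∈ monI uu ⊔ Ideal.span (Set.range θ))
    (h3 : (X 3 : MvPolynomial (Fin 4) 𝕂) ∈ monI uu ⊔ Ideal.span (Set.range θ))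
    (hL : lin c ∈ monI uu ⊔ Ideal.span (Set.range θ)) : False := by
  let W : Submodule 𝕂 (Fin 4 → 𝕂) := Submodule.span 𝕂 (Set.range fun j => linPart (θ j))
  have hle : monI uu ⊔ Ideal.span (Set.range θ) ≤ idealOf W := by
    apply sup_le (monI_le W)
    rw [Ideal.span_le]
    rintro _ ⟨j, rfl⟩
    exact ⟨hθ j, Submodule.subset_span ⟨j, rfl⟩⟩
  have w1 : (Pi.single 1 1 : Fin 4 → 𝕂) ∈ W := by
    rw [← linPart_X]
    exact (hle h1).2
  have w3 : (Pi.single 3 1 : Fin 4 → 𝕂) ∈ W := by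
    rw [← linPart_X]
    exact (hle h3).2
  have wL : c ∈ W := by
    rw [← linPart_lin c]
    exact (hle hL).2
  have hfin : Module.finrank 𝕂 W ≤ 2 := by
    refine (finrank_range_le_card _).trans ?_
    simpa using hr
  have hli : LinearIndependent 𝕂 ![(⟨_, w1⟩ : W), ⟨_, w3⟩, ⟨_, wL⟩] := by
    rw [Fintype.linearIndependent_iff]
    intro g hg
    have hg' := congrArg Subtype.val hg
    simp only [Fin.sum_univ_three, Submodule.coe_add, Submodule.coe_smul, Submodule.coe_zero,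
      Matrix.cons_val_zero, Matrix.cons_val_one, Matrix.cons_val] at hg'
    have e0 := congrFun hg' 0
    have e1 := congrFun hg' 1
    have e3 := congrFun hg' 3
    simp only [Pi.add_apply, Pi.smul_apply, smul_eq_mul, Pi.zero_apply] at e0 e1 e3
    have g2 : g 2 = 0 := by
      simp at e0
      tauto
    have g0 : g 0 = 0 := by
      simpa [g2] using e1
    have g1 : g 1 = 0 := by
      simpa [g2] using e3
    intro i
    fin_cases i
    · exact g0
    · exact g1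
    · exact g2
  have := hli.fintype_card_le_finrank
  rw [Fintype.card_fin] at this
  omega

/-! ### The dimension and regularity -/

theorem relPrime : IsRelPrime (X 0 * X 1 : MvPolynomial (Fin 4) 𝕂) (X 2 * X 3) := by
  have h : ∀ i j : Fin 4, i ≠ j → IsRelPrime (X i : MvPolynomial (Fin 4) 𝕂) (X j) := by
    intro i j hij
    rw [Irreducible.isRelPrime_iff_not_dvd (X_prime (i := i)).irreducible, X_dvd_X]
    exact hij
  exact IsRelPrime.mul_left ((h 0 2 (by decide)).mul_right (h 0 3 (by decide)))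
    ((h 1 2 (by decide)).mul_right (h 1 3 (by decide)))

theorem u1_ne : (X 0 * X 1 : MvPolynomial (Fin 4) 𝕂) ≠ 0 :=
  mul_ne_zero (X_ne_zero 0) (X_ne_zero 1)

theorem dvd_of_mul {f : MvPolynomial (Fin 4) 𝕂}
    (h : (X 0 * X 1 : MvPolynomial (Fin 4) 𝕂) ∣ (X 2 * X 3) * f) :
    (X 0 * X 1 : MvPolynomial (Fin 4) 𝕂) ∣ f :=
  relPrime.dvd_of_dvd_mul_left h

theorem dim_general {R : Type} [CommRing R] [IsDomain R] (u v : R) (hu : u ≠ 0)
    (h : ∀ f, u ∣ v * f → u ∣ f) :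
    ringKrullDim (R ⧸ Ideal.span {u, v}) + 1 + 1 ≤ ringKrullDim R := by
  have h1 : ringKrullDim (R ⧸ Ideal.span {u}) + 1 ≤ ringKrullDim R :=
    ringKrullDim_quotient_succ_le_of_nonZeroDivisor (mem_nonZeroDivisors_of_ne_zero hu)
  have h2 : Ideal.Quotient.mk (Ideal.span {u}) v ∈ nonZeroDivisors (R ⧸ Ideal.span {u}) := by
    rw [mem_nonZeroDivisors_iff_right]
    intro x hx
    obtain ⟨f, rfl⟩ := Ideal.Quotient.mk_surjective x
    rw [← map_mul, Ideal.Quotient.eq_zero_iff_mem, Ideal.mem_span_singleton, mul_comm] at hx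
    rw [Ideal.Quotient.eq_zero_iff_mem, Ideal.mem_span_singleton]
    exact h f hx
  have h3 := ringKrullDim_quotient_succ_le_of_nonZeroDivisor h2
  have e : ((R ⧸ Ideal.span {u}) ⧸ Ideal.span {Ideal.Quotient.mk (Ideal.span {u}) v}) ≃+*
      (R ⧸ Ideal.span {u, v}) := by
    refine (Ideal.quotEquivOfEq ?_).trans ((DoubleQuot.quotQuotEquivQuotSup
      (Ideal.span {u}) (Ideal.span {v})).trans (Ideal.quotEquivOfEq ?_))
    · rw [Ideal.map_span, Set.image_singleton]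
    · rw [← Ideal.span_union, Set.singleton_union]
  rw [← ringKrullDim_eq_of_ringEquiv e]
  exact (add_le_add_left h3 1).trans h1

theorem dim_le : ringKrullDim (MvPolynomial (Fin 4) 𝕂 ⧸ (monI uu : Ideal (MvPolynomial (Fin 4) 𝕂)))
    + 1 + 1 ≤ 4 := by
  have h4 : ringKrullDim (MvPolynomial (Fin 4) 𝕂) = 4 := by
    rw [MvPolynomial.ringKrullDim_of_isNoetherianRing, ringKrullDim_eq_zero_of_field]
    simp
  rw [monI_eq, ← h4]
  exact dim_general _ _ u1_ne fun f => dvd_of_mul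

theorem r_le {r : ℕ} (h : ringKrullDim (MvPolynomial (Fin 4) 𝕂 ⧸
    (monI uu : Ideal (MvPolynomial (Fin 4) 𝕂))) = r) : r ≤ 2 := by
  have := dim_le (𝕂 := 𝕂)
  rw [h] at this
  have h2 : ((r + 1 + 1 : ℕ) : WithBot ℕ∞) ≤ ((4 : ℕ) : WithBot ℕ∞) := by
    push_cast
    exact this
  have h3 : r + 1 + 1 ≤ 4 := by exact_mod_cast h2
  omega

theorem regular : RingTheory.Sequence.IsRegular (MvPolynomial (Fin 4) 𝕂)
    (List.ofFn fun k => (sqf (uu k) : MvPolynomial (Fin 4) 𝕂)) := by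
  have e : (List.ofFn fun k => (sqf (uu k) : MvPolynomial (Fin 4) 𝕂)) =
      [(X 0 * X 1 : MvPolynomial (Fin 4) 𝕂), X 2 * X 3] := by
    simp [List.ofFn_succ, uu, sqf]
  rw [e]
  refine ⟨?_, ?_⟩
  · rw [RingTheory.Sequence.isWeaklyRegular_cons_iff,
      RingTheory.Sequence.isWeaklyRegular_cons_iff]
    refine ⟨?_, ?_, ?_⟩
    · intro f g hfg
      exact mul_left_cancel₀ u1_ne hfg
    · rw [isSMulRegular_iff_right_eq_zero_of_smul]
      intro x hx
      obtain ⟨f, rfl⟩ := Submodule.mkQ_surjective _ x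
      rw [← map_smul, Submodule.mkQ_apply, Submodule.Quotient.mk_eq_zero] at hx
      rw [Submodule.mkQ_apply, Submodule.Quotient.mk_eq_zero]
      obtain ⟨g, -, hg⟩ := hx
      have h1 : (X 0 * X 1 : MvPolynomial (Fin 4) 𝕂) ∣ (X 2 * X 3) * f := ⟨g, hg.symm⟩
      obtain ⟨g', hg'⟩ := dvd_of_mul h1
      exact ⟨g', trivial, hg'.symm⟩
    · exact RingTheory.Sequence.IsWeaklyRegular.nil _ _
  · intro h
    have h1 : (1 : MvPolynomial (Fin 4) 𝕂) ∈
        (Ideal.ofList [(X 0 * X 1 : MvPolynomial (Fin 4) 𝕂), X 2 * X 3] •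
          (⊤ : Submodule (MvPolynomial (Fin 4) 𝕂) (MvPolynomial (Fin 4) 𝕂))) := by
      rw [← h]
      trivial
    rw [smul_eq_mul, Ideal.mul_top] at h1
    have h2 : (1 : MvPolynomial (Fin 4) 𝕂) ∈ (monI uu : Ideal (MvPolynomial (Fin 4) 𝕂)) := by
      rw [monI_eq]
      refine Ideal.span_mono ?_ h1
      intro x hx
      simpa using hx
    have h3 := monI_le ⊥ h2
    rw [mem_idealOf] at h3
    simpa using h3.1

/-! ### Failure of the WLP -/

theorem not_inj {c : Fin 4 → 𝕂} (hc : ∀ i, c i ≠ 0) :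
    ¬ MulInj (monJ uu aa) (lin c) 3 := by
  intro h
  have hf := h (C (c 1) * (X 1 ^ 2 * X 3) - C (c 3) * (X 1 * X 3 ^ 2)) ?_ ?_
  · rw [mem_monJ] at hf
    have h1 : coeff (e4 0 2 0 1) (C (c 1) * (X 1 ^ 2 * X 3) - C (c 3) * (X 1 * X 3 ^ 2)) = c 1 := by
      have m1 : (X 1 ^ 2 * X 3 : MvPolynomial (Fin 4) 𝕂) = monomial (e4 0 2 0 1) 1 := by
        have : (Finsupp.single 1 2 + Finsupp.single 3 1 : Fin 4 →₀ ℕ) = e4 0 2 0 1 := by
          ext i
          fin_cases i <;> simp [e4]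
        rw [X_pow_eq_monomial, X, monomial_mul, one_mul, this]
      have m2 : (X 1 * X 3 ^ 2 : MvPolynomial (Fin 4) 𝕂) = monomial (e4 0 1 0 2) 1 := by
        have : (Finsupp.single 1 1 + Finsupp.single 3 2 : Fin 4 →₀ ℕ) = e4 0 1 0 2 := by
          ext i
          fin_cases i <;> simp [e4]
        rw [X_pow_eq_monomial, X, monomial_mul, one_mul, this]
      have hne : e4 0 1 0 2 ≠ e4 0 2 0 1 := fun h => by
        have := DFunLike.congr_fun h 1
        simp [e4_1] at this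
      rw [m1, m2, coeff_sub, coeff_C_mul, coeff_C_mul, coeff_monomial, coeff_monomial,
        if_pos rfl, if_neg hne, mul_one, mul_zero, sub_zero]
    have h2 := hf (e4 0 2 0 1) (by rw [mem_support_iff, h1]; exact hc 1)
    simp only [e4_0, e4_1, e4_2, e4_3] at h2
    omega
  · have t1 := ((isHomogeneous_X 𝕂 (1 : Fin 4)).pow 2).mul (isHomogeneous_X 𝕂 (3 : Fin 4))
    have t2 := ((isHomogeneous_X 𝕂 (1 : Fin 4))).mul ((isHomogeneous_X 𝕂 (3 : Fin 4)).pow 2)
    exact ((isHomogeneous_C (Fin 4) (c 1)).mul t1).sub ((isHomogeneous_C (Fin 4) (c 3)).mul t2)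
  · have e : lin c * (C (c 1) * (X 1 ^ 2 * X 3) - C (c 3) * (X 1 * X 3 ^ 2)) =
        (C (c 0) * (C (c 1) * (X 1 * X 3) - C (c 3) * X 3 ^ 2)) * (X 0 * X 1) +
        (C (c 2) * (C (c 1) * X 1 ^ 2 - C (c 3) * (X 1 * X 3))) * (X 2 * X 3) +
        ((C (c 1) * C (c 1) * X 3) * X 1 ^ 3 - (C (c 3) * C (c 3) * X 1) * X 3 ^ 3) := by
      rw [lin, Fin.sum_univ_four]
      ring
    rw [e]
    have i1 : (X 0 * X 1 : MvPolynomial (Fin 4) 𝕂) ∈ monJ uu aa := by
      refine Ideal.mem_sup_left ?_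
      rw [monI_eq]
      exact Ideal.subset_span (by simp)
    have i2 : (X 2 * X 3 : MvPolynomial (Fin 4) 𝕂) ∈ monJ uu aa := by
      refine Ideal.mem_sup_left ?_
      rw [monI_eq]
      exact Ideal.subset_span (by simp)
    have i3 : (X 1 ^ 3 : MvPolynomial (Fin 4) 𝕂) ∈ monJ uu aa :=
      Ideal.mem_sup_right (Ideal.subset_span ⟨1, rfl⟩)
    have i4 : (X 3 ^ 3 : MvPolynomial (Fin 4) 𝕂) ∈ monJ uu aa :=
      Ideal.mem_sup_right (Ideal.subset_span ⟨3, rfl⟩)
    exact Ideal.add_mem _ (Ideal.add_mem _ (Ideal.mul_mem_left _ _ i1) (Ideal.mul_mem_left _ _ i2))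
      (Ideal.sub_mem _ (Ideal.mul_mem_left _ _ i3) (Ideal.mul_mem_left _ _ i4))

theorem not_surj {c : Fin 4 → 𝕂} (hc : ∀ i, c i ≠ 0) :
    ¬ MulSurj (monJ uu aa) (lin c) 3 := by
  intro h
  obtain ⟨f, hf, hJ⟩ := h (X 0 ^ 4) ((isHomogeneous_X 𝕂 (0 : Fin 4)).pow 4)
  rw [mem_monJ] at hJ
  have hlin : (lin c).IsHomogeneous 1 := by
    refine IsHomogeneous.sum _ _ _ fun i _ => ?_
    exact (isHomogeneous_C (Fin 4) (c i)).mul (isHomogeneous_X 𝕂 i)
  have hhom : (X 0 ^ 4 - lin c * f).IsHomogeneous 4 :=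
    ((isHomogeneous_X 𝕂 (0 : Fin 4)).pow 4).sub (hlin.mul hf)
  let p : Fin 4 → 𝕂 := ![(c 0)⁻¹, 0, -(c 2)⁻¹, 0]
  have h0 : eval p (X 0 ^ 4 - lin c * f) = 0 := by
    rw [eval_eq']
    apply Finset.sum_eq_zero
    intro s hs
    have hdeg : s.degree = 4 := by
      by_contra h'
      exact (mem_support_iff.mp hs) (hhom.coeff_eq_zero h')
    rw [Finsupp.degree_eq_sum, Fin.sum_univ_four] at hdeg
    rw [Fin.prod_univ_four]
    have hp1 : p 1 = 0 := rfl
    have hp3 : p 3 = 0 := rfl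
    have hor : 1 ≤ s 1 ∨ 1 ≤ s 3 := by
      have := hJ s hs
      omega
    rcases hor with h1 | h1
    · rw [hp1, zero_pow (by omega)]
      ring
    · rw [hp3, zero_pow (by omega)]
      ring
  have h1 : eval p (lin c) = 0 := by
    rw [lin, Fin.sum_univ_four]
    simp only [map_add, map_mul, eval_C, eval_X]
    show c 0 * (c 0)⁻¹ + c 1 * 0 + c 2 * -(c 2)⁻¹ + c 3 * 0 = 0
    rw [mul_inv_cancel₀ (hc 0), mul_neg, mul_inv_cancel₀ (hc 2)]
    ring
  rw [map_sub, map_mul, h1, zero_mul, sub_zero, map_pow, eval_X] at h0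
  have h2 : p 0 = (c 0)⁻¹ := rfl
  rw [h2] at h0
  exact pow_ne_zero 4 (inv_ne_zero (hc 0)) h0

end Proof

/-- Over every field `𝕂` of characteristic `0` there are a squarefree monomial complete
intersection `I = I(u)` without pure powers of variables and exponents `aᵢ > 2` such that
`A = R / J` fails the WLP in degree `t - 1 = d`, but for a general linear form `L` no element `F`
of the kernel `𝒦` is the Macaulay dual generator of `I + (θ₁, …, θᵣ)` for a system of parameters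
`θ` of `I`. -/
theorem result (𝕂 : Type) [Field 𝕂] [CharZero 𝕂] :
    ∃ (n m : ℕ) (u : Fin m → Finset (Fin n)) (a : Fin n → ℕ) (d : ℕ),
      RingTheory.Sequence.IsRegular (MvPolynomial (Fin n) 𝕂)
        (List.ofFn fun k => (sqf (u k) : MvPolynomial (Fin n) 𝕂)) ∧
      (∀ (i : Fin n) (b : ℕ), 0 < b → (X i ^ b : MvPolynomial (Fin n) 𝕂) ∉ monI u) ∧
      (∀ i, 2 < a i) ∧
      FailsWLP (𝕂 := 𝕂) (monJ u a) d ∧
      General fun c : Fin n → 𝕂 => ∀ F ∈ ker (monJ u a) (lin c) (d + 1),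
        ∀ (r : ℕ) (θ : Fin r → MvPolynomial (Fin n) 𝕂), IsSop (monI u) θ →
          ann F ≠ (monI u ⊔ Ideal.span (Set.range θ) : Ideal (MvPolynomial (Fin n) 𝕂)) := by
  have hgen : ∀ c : Fin 4 → 𝕂, eval c (X 0 * X 1 * X 2 * X 3) ≠ 0 → ∀ i, c i ≠ 0 := by
    intro c hc i hi
    apply hc
    simp only [map_mul, eval_X]
    fin_cases i
    · rw [show c 0 = 0 from hi]; ring
    · rw [show c 1 = 0 from hi]; ring
    · rw [show c 2 = 0 from hi]; ring
    · rw [show c 3 = 0 from hi]; ring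
  have hP : (X 0 * X 1 * X 2 * X 3 : MvPolynomial (Fin 4) 𝕂) ≠ 0 :=
    mul_ne_zero (mul_ne_zero (mul_ne_zero (X_ne_zero _) (X_ne_zero _)) (X_ne_zero _))
      (X_ne_zero _)
  refine ⟨4, 2, uu, aa, 3, regular, ?_, ?_, ?_, ?_⟩
  · intro i b hb h
    rw [mem_monI] at h
    have h1 := h (Finsupp.single i b) (by
      rw [mem_support_iff, X_pow_eq_monomial, coeff_monomial, if_pos rfl]
      exact one_ne_zero)
    fin_cases i <;> simp at h1
  · intro i
    fin_cases i <;> simp [aa]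
  · exact ⟨_, hP, fun c hc => ⟨not_inj (hgen c hc), not_surj (hgen c hc)⟩⟩
  · refine ⟨_, hP, fun c hc F hF r θ hθ hann => ?_⟩
    have hc' := hgen c hc
    obtain ⟨p1, p3⟩ := pderiv_zero_of_ker hc' hF
    have hmem : ∀ g, act g F = 0 → g ∈ (monI uu ⊔ Ideal.span (Set.range θ) :
        Ideal (MvPolynomial (Fin 4) 𝕂)) := by
      intro g hg
      have : g ∈ ann F := hg
      rw [hann] at this
      exact this
    refine no_three (r_le hθ.1) θ ?_ (hc' 0) (hmem _ ?_) (hmem _ ?_) (hmem _ hF.2.2)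
    · intro j
      obtain ⟨d, hd, hh⟩ := hθ.2.1 j
      have := hh.coeff_eq_zero (d := 0) (by simp; omega)
      exact this
    · rw [act_X]; exact p1
    · rw [act_X]; exact p3

end Pool.Agent.Results.MP_2332b0_al.NoCIGenerator
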